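import Mathlib
import Pool.Agent.Lib.MP_3efbeb_nt.LG.All3

/-!
# Primes with almost prime neighbours: almost all patterns of log-power size

Let `k ≥ 1`, `r_1, …, r_k ≥ 2`, let `F_1, …, F_f ≥ 1` be distinct FIXED shifts (`f = 0` is allowed) and let `A` be real. There is
`c > 0` such that for all but at most `H ^ k / (log H) ^ A` of the `h ∈ [1, H] ^ k` (`H` large): if `{0} ∪ {h_i} ∪ {F_j}` is admissible
then for EVERY `N` with `H ^ 3 ≤ N ≤ exp (H ^ c)` at least `c N / (log N) ^ (k + f + 1)` of the `n ≤ N` are prime, with every `n + h_i`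
a product of exactly `r_i` primes and every `n + F_j` without prime factors below `N ^ c`.
-/

set_option autoImplicit false

namespace Pool.Agent.Results.MP_3efbeb_nt.AlmostAllPatterns

/-- `0, h_1, …, h_k, F_1, …, F_f` do not cover all residue classes modulo any prime. -/
def Admissible {k f : ℕ} (h : Fin k → ℕ) (F : Fin f → ℕ) : Prop :=
  ∀ p : ℕ, p.Prime → ∃ a : ℕ, ¬ p ∣ a * ((∏ i, (a + h i)) * ∏ j, (a + F j))

open scoped Classical in
/-- The number of the primes `n ≤ N` for which every `n + h_i` has exactly `r_i` prime factors (counted with multiplicity) and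
every prime factor of every `n + F_j` is at least `N ^ c`. -/
noncomputable def count {k f : ℕ} (r h : Fin k → ℕ) (F : Fin f → ℕ) (c : ℝ) (N : ℕ) : ℕ :=
  ((Finset.Icc 1 N).filter (fun n : ℕ => n.Prime ∧ (∀ i, (n + h i).primeFactorsList.length = r i) ∧
    ∀ j, ∀ p : ℕ, p.Prime → p ∣ n + F j → (N : ℝ) ^ c ≤ p)).card

/-- The exceptional admissible patterns with entries in `[1, H]`: for some `N` in the range the count is too small. -/
def exceptional {k f : ℕ} (r : Fin k → ℕ) (F : Fin f → ℕ) (c : ℝ) (H : ℕ) : Set (Fin k → ℕ) :=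
  {h | (∀ i, 1 ≤ h i ∧ h i ≤ H) ∧ Admissible h F ∧ ∃ N : ℕ, H ^ 3 ≤ N ∧ (N : ℝ) ≤ Real.exp ((H : ℝ) ^ c) ∧
    (count r h F c N : ℝ) < c * N / Real.log N ^ (k + f + 1)}

theorem result (k f : ℕ) (r : Fin k → ℕ) (F : Fin f → ℕ) (A : ℝ) (hk : 1 ≤ k) (hr : ∀ i, 2 ≤ r i)
    (hF : ∀ j, 1 ≤ F j) (hF' : Function.Injective F) :
    ∃ (c : ℝ) (H₀ : ℕ), 0 < c ∧ ∀ H : ℕ, H₀ ≤ H →
      ((exceptional r F c H).ncard : ℝ) ≤ (H : ℝ) ^ k / Real.log H ^ A := by
  classical
  obtain ⟨c, H₀, hc, h⟩ := Pool.Agent.Lib.MP3efbeb.LG.main3 k f r F (max A 1) hk hr hF hF' (by positivity)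
  refine ⟨c, max H₀ 3, hc, fun H hH => ?_⟩
  have h0 : H₀ ≤ H := le_trans (le_max_left _ _) hH
  have h3 : 3 ≤ H := le_trans (le_max_right _ _) hH
  have h3' : (3 : ℝ) ≤ H := by exact_mod_cast h3
  have hlog : 1 ≤ Real.log H := by
    rw [Real.le_log_iff_exp_le (by linarith)]
    linarith [Real.exp_one_lt_d9]
  have hadm : ∀ h : Fin k → ℕ, Admissible h F ↔ Pool.Agent.Lib.MP3efbeb.LG.Adm (Fin.append h F) := by
    intro h
    unfold Admissible Pool.Agent.Lib.MP3efbeb.LG.Adm
    refine forall_congr' fun p => forall_congr' fun _ => exists_congr fun a => ?_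
    rw [Fin.prod_univ_add]
    simp only [Fin.append_left, Fin.append_right]
  have hsub : exceptional r F c H = ↑((Fintype.piFinset (fun _ : Fin k => Finset.Icc 1 H)).filter
      (fun h => Pool.Agent.Lib.MP3efbeb.LG.Adm (Fin.append h F) ∧ ∃ N : ℕ, H ^ 3 ≤ N ∧
        (N : ℝ) ≤ Real.exp ((H : ℝ) ^ c) ∧
        ((Pool.Agent.Lib.MP3efbeb.LG.LPfix r h F c N).card : ℝ) < c * N / Real.log N ^ (k + f + 1))) := by
    ext h
    simp only [exceptional, hadm, Set.mem_setOf_eq, Finset.coe_filter, Fintype.mem_piFinset, Finset.mem_Icc]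
    rfl
  rw [hsub, Set.ncard_coe_finset]
  refine (h H h0).trans ?_
  apply div_le_div_of_nonneg_left (by positivity) (Real.rpow_pos_of_pos (by linarith) _)
  exact Real.rpow_le_rpow_of_exponent_le hlog (le_max_left _ _)

end Pool.Agent.Results.MP_3efbeb_nt.AlmostAllPatterns
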