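import Pool.Agent.Lib.MP_3efbeb_nt.ER.All

set_option autoImplicit false

/-!
Arithmetic progressions of length `k` with bounded difference all of whose members have exactly `r` prime factors, for
every large `r`.

Idea of the proof.  `s = r - 1`, `z = x ^ β₀`, `T = x ^ β₁`, `β₁ = κ / s`, `β₀ = β₁ e ^ (-s)` with a small constant `κ`; a
window consists of the numbers `n + M i`, `i < N / 2`, `M` divisible by the small primes, all without prime factors `< z`;
`N` is a prime of the size of a small power of `e ^ s`.

(1) `A`: the `m = a P`, `P` a large prime, `a` the product of `s` different primes of `[z, T)`.  The indicator of `A` has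
the majorant `h`, a product of Bonferroni sums in the numbers of primes of `m` in `[z, T)` and in the intervals
`[x ^ β, x ^ (2 β))` between `T` and `x ^ ε`; `h` is a divisor sum of level `x ^ (O(ε))`, and the mean of `h` over the
members of the windows is at most a constant (independent of `r`) times the mean of the indicator of `A`.  (Both are about
`s ^ (-3/2)`, so the density of `A` is much smaller than the bounds in Szemerédi's theorem.)

(2) By the fundamental lemma of the sieve in dimension `N`, uniform in the dimension, the values of `h` at different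
members of the windows are asymptotically independent; the mean of the indicator of `A` is found from the second moment
of the number of the primes `q` of an interval such that `q m'` lies in a window (a substitute for the
Bombieri-Vinogradov theorem).

(3) So in almost all windows the normalised majorant satisfies the linear forms condition in `ZMod N`, and the relative
Szemerédi theorem (Green-Tao; the proof follows Conlon, Fox and Zhao: dense model theorem, counting lemma by
densification; Szemerédi's theorem itself from the density Hales-Jewett theorem, proved in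
`Pool.Agent.Lib.MP_3efbeb_nt.DH`) gives progressions in `A` inside a positive proportion of the windows.  Their
differences are bounded, hence one of them occurs for infinitely many `x`.
-/

namespace Pool.Agent.Results.MP_3efbeb_nt.ExactlyR

open Finset
open scoped Classical

/-- `m` has exactly `r` prime factors (with multiplicity), all of them `> x ^ c`, one of them `> x ^ (1 - θ)` -/
def Exactly (r : ℕ) (θ c : ℝ) (x m : ℕ) : Prop :=
  m.primeFactorsList.length = r ∧ (∀ p : ℕ, p.Prime → p ∣ m → (x : ℝ) ^ c < p) ∧
    ∃ P : ℕ, P.Prime ∧ P ∣ m ∧ (x : ℝ) ^ (1 - θ) < P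

/-- the `n ≤ x` such that `n, n + e, …, n + (k - 1) e` all have this property -/
noncomputable def progs (k r : ℕ) (θ c : ℝ) (e x : ℕ) : Finset ℕ :=
  (Icc 1 x).filter (fun n => ∀ j < k, Exactly r θ c x (n + e * j))

/-- For all `k` and `θ > 0` there is `r₀` such that for every `r ≥ r₀` there is `G` such that for every `t ≥ 1` there are
`c > 0` and `C` such that (1) for all large `x` some multiple `e ≤ G t` of `t`, (2) for arbitrarily large `x` one and the
same multiple `e ≤ G t` of `t` has at least `x / (log x) ^ C` of the `n ≤ x` in `progs`. -/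
theorem result (k : ℕ) (θ : ℝ) (hθ : 0 < θ) : ∃ r₀ : ℕ, ∀ r : ℕ, r₀ ≤ r → ∃ G : ℕ, ∀ t : ℕ, 1 ≤ t →
    ∃ (c : ℝ) (C : ℕ), 0 < c ∧
      (∃ x₀ : ℕ, ∀ x : ℕ, x₀ ≤ x → ∃ e : ℕ, t ∣ e ∧ 1 ≤ e ∧ e ≤ G * t ∧
        (x : ℝ) / Real.log x ^ C ≤ (progs k r θ c e x).card) ∧
      ∃ e : ℕ, t ∣ e ∧ 1 ≤ e ∧ e ≤ G * t ∧ ∀ X : ℕ, ∃ x : ℕ, X ≤ x ∧
        (x : ℝ) / Real.log x ^ C ≤ (progs k r θ c e x).card := by
  obtain ⟨r₀, h⟩ := Pool.Agent.Lib.MP_3efbeb_nt.ER.specER_all k θ hθ
  refine ⟨r₀, fun r hr => ?_⟩
  obtain ⟨G, hG⟩ := h r hr
  refine ⟨G, fun t ht => ?_⟩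
  obtain ⟨c, C, hc, ⟨x₀, h1⟩, e, he1, heG, h2⟩ := hG t ht
  refine ⟨c, C, hc, ⟨x₀, fun x hx => ?_⟩, t * e, ⟨e, rfl⟩, Nat.mul_pos ht he1, ?_, h2⟩
  · obtain ⟨e, he1, heG, h3⟩ := h1 x hx
    exact ⟨t * e, ⟨e, rfl⟩, Nat.mul_pos ht he1, by rw [mul_comm G t]; exact Nat.mul_le_mul_left t heG, h3⟩
  · rw [mul_comm G t]
    exact Nat.mul_le_mul_left t heG

end Pool.Agent.Results.MP_3efbeb_nt.ExactlyR
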