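import Pool.Agent.Lib.MP_3efbeb_nt.PR.All

set_option autoImplicit false

/-!
Two members with a number of prime factors of the same prescribed parity, at a fixed shift `h`, `24 ∣ h`.

Idea of the proof.  Let `λ` be the Liouville function and suppose that no pair `(n, n + h)` of rough numbers (together with
the other members of the tuple) has `λ(n) = λ(n + h) = σ`.

(1) For rough `s, t` with `λ(s) = λ(t) = -1` and `s g = t + 2`: if `λ(L) = -σ` then `λ(s L) = σ`, so `s L + h = t L₁` has
`λ = -σ`, `λ(L₁) = σ`, `λ(L₁ + h) = -σ`, `λ(t (L₁ + h)) = σ`, and `t (L₁ + h) + h = s (L + g h)` has `λ = -σ`, so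
`λ(L + g h) = σ`.  With a second pair `s', t'` with the same `g` also `λ(L + h) = -σ` implies `λ(L + h + g h) = σ`.
So `λ(L) λ(L + h) = -1` for the `L` in a residue class with all these numbers rough.

(2) With `k = h / 4`, `Q = P + k`, `b = Q m + 2`, `c = P m + 2`, `a = P Q m + 2 k`, `d = P Q m + 2 P + 4 k`:
`Q² m c + h = b a`, `P m d + h = c a`, `P b + h = d`, and the product of the six numbers `Q² m c`, `b a`, `P m d`, `c a`, `P b`, `d`
is a square.  So (1) cannot hold for all three pairs.

`P` is a constant, `m` the variable; the Brun-Hooley sieve for the values of a polynomial gives many `m`.  If `24 ∣ h` then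
there are no local obstructions.
-/

namespace Pool.Agent.Results.MP_3efbeb_nt.FixedShiftPairs

open Finset
open scoped Classical
open Pool.Agent.Lib.MP_3efbeb_nt.PR

/-- Let `i < j` be elements of the finite set `H` of shifts, `24 ∣ j - i`, and let `k - i` be divisible by `(48 |H|)!` for
all `k ≠ j` in `H` (no condition if `H = {i, j}`).  Then for every `r` there is `C` such that for all `z ≥ 2` and all
`x ≥ z ^ C`, at least `√x / z ^ C` of the `n ≤ x` have all prime factors of `∏ h ∈ H, (n + h)` larger than `z`, and both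
`n + i` and `n + j` have a number of prime factors of the parity of `r`. -/
theorem result (H : Finset ℕ) (i j : ℕ) (hi : i ∈ H) (hj : j ∈ H) (hij : i < j) (h24 : 24 ∣ j - i)
    (hH : ∀ k ∈ H, k ≠ j → ((48 * H.card).factorial : ℤ) ∣ (k : ℤ) - i) (r : ℕ) :
    ∃ C : ℕ, ∀ z : ℕ, 2 ≤ z → ∀ x : ℕ, z ^ C ≤ x →
      Nat.sqrt x ≤ z ^ C * ((Icc 1 x).filter (fun n =>
        (∀ p : ℕ, p.Prime → p ∣ ∏ h ∈ H, (n + h) → z < p) ∧
        (n + i).primeFactorsList.length % 2 = r % 2 ∧ (n + j).primeFactorsList.length % 2 = r % 2)).card :=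
  main_fin H i j hi hj hij h24 hH r

end Pool.Agent.Results.MP_3efbeb_nt.FixedShiftPairs
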