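import Pool.Agent.Lib.MP_3efbeb_nt.TK.All
import Pool.Agent.Lib.MP_926cc3_nt.RS.Exist

/-!
# Prime tuples in the rings `ℤ[1/S]` for random sets `S` of primes

The primes are inverted at random, independently of each other.
-/

set_option autoImplicit false

open MeasureTheory ProbabilityTheory Filter

namespace Pool.Agent.Results.MP_3efbeb_nt.InvertedPrimes

/-- The ring `ℤ[1/S]`: the localization of `ℤ` at the multiplicative set generated by `S`. -/
abbrev RingInv (S : Set ℕ) : Type := Localization (Submonoid.closure ((fun p : ℕ => (p : ℤ)) '' S))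

/-- `n` is a prime element of `ℤ[1/S]`. -/
def PrimeIn (S : Set ℕ) (n : ℕ) : Prop := Prime (n : RingInv S)

/-- The set of the inverted primes: the prime `p` is inverted if the event `A p` occurs. -/
def inverted {Ω : Type} (A : ℕ → Set Ω) (ω : Ω) : Set ℕ := {p | p.Prime ∧ ω ∈ A p}

/-- Let the events `A p`, `p` prime, be independent, and let `S` be the random set of the primes `p`
for which `A p` occurs. Let `k ≥ 3` and `δ > 0`. If `δ / p ^ (2 / (k - 1)) ≤ P(A p) ≤ 1 - δ` for all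
large primes `p`, then almost surely, for every set `H` of at most `k` shifts which covers all
residue classes modulo no prime, there are infinitely many `n` such that all `n + h`, `h ∈ H`, are
prime elements of `ℤ[1/S]`. (For `k = 3` the lower bound is `δ / p`.) Such events exist for all
prescribed probabilities. -/
theorem result :
    (∀ (Ω : Type) [MeasurableSpace Ω] (μ : Measure Ω) [IsProbabilityMeasure μ] (A : ℕ → Set Ω),
      (∀ p, MeasurableSet (A p)) → iIndepSet (fun p : Nat.Primes => A p) μ →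
      ∀ (k : ℕ) (δ : ℝ), 3 ≤ k → 0 < δ →
        (∀ᶠ p : ℕ in atTop, p.Prime →
          δ / (p : ℝ) ^ (2 / ((k : ℝ) - 1)) ≤ μ.real (A p) ∧ μ.real (A p) ≤ 1 - δ) →
        ∀ᵐ ω ∂μ, ∀ H : Finset ℕ, H.card ≤ k →
          (∀ p : ℕ, p.Prime → ∃ r : ℕ, ∀ h ∈ H, ¬ p ∣ r + h) →
          {n : ℕ | ∀ h ∈ H, PrimeIn (inverted A ω) (n + h)}.Infinite) ∧
    (∀ ε : ℕ → ℝ, (∀ p, 0 ≤ ε p) → (∀ p, ε p ≤ 1) →
      ∃ (Ω : Type) (_ : MeasurableSpace Ω) (μ : Measure Ω) (A : ℕ → Set Ω),
        IsProbabilityMeasure μ ∧ (∀ p, MeasurableSet (A p)) ∧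
        iIndepSet (fun p : Nat.Primes => A p) μ ∧ ∀ p, μ.real (A p) = ε p) := by
  have hP : ∀ (S : Set ℕ) (n : ℕ), Pool.Agent.Lib.MP3efbeb.T.PrimeIn S n ↔ PrimeIn S n := by
    intro S n
    unfold Pool.Agent.Lib.MP3efbeb.T.PrimeIn PrimeIn
    rw [show ((n : ℕ) : RingInv S) = algebraMap ℤ (RingInv S) (n : ℤ) by simp]
    exact Iff.rfl
  refine ⟨?_, ?_⟩
  · intro Ω _ μ _ A hA hind k δ hk hδ hp
    obtain ⟨P₀, hP₀⟩ := eventually_atTop.1 hp
    have h := Pool.Agent.Lib.MP3efbeb.TK.main1 Ω μ A hA hind δ P₀ k hδ hk (fun p hpp hP => by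
      obtain ⟨h1, h2⟩ := hP₀ p hP hpp
      refine ⟨?_, h2⟩
      unfold Pool.Agent.Lib.MP3efbeb.TK.th
      rw [Real.rpow_neg (Nat.cast_nonneg p), ← div_eq_mul_inv]
      exact h1)
    filter_upwards [h] with ω hω H hH hadm
    have h1 := hω H hH hadm
    simp only [hP] at h1
    exact h1
  · intro ε h0 h1
    obtain ⟨Ω, m0, μ, B, hμ, hB, hI, hp⟩ := Pool.Agent.Lib.MP_926cc3_nt.RS.Exist.events ℕ ε h0 h1
    exact ⟨Ω, m0, μ, B, hμ, hB, hI.precomp Nat.Primes.coe_nat_injective, hp⟩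

end Pool.Agent.Results.MP_3efbeb_nt.InvertedPrimes
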